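import Pool.Agent.P.MP_e72dc0_lc.BdB
import Pool.Agent.P.MP_e72dc0_lc.LOd
import Pool.Agent.P.MP_e72dc0_lc.LOe

/-! Rank methods, degeneration and border substitution together stop at `2 n ^ 2 + O(n)` on the
matrix product tensor. -/

open Pool.Agent.P.MP_e72dc0_lc.Bd

theorem Pool.Agent.Results.MP_e72dc0_lc.BorderMethodsBarrier.result (u v w r : ℕ)
    (h : Der (fun (i : Fin (u * v)) (j : Fin (v * w)) (k : Fin (w * u)) =>
      if i.modNat = j.divNat ∧ j.modNat = k.divNat ∧ k.modNat = i.divNat then 1 else 0) r) :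
    (r : ℝ) ≤ max (u * v + v * w : ℝ) (max (v * w + w * u) (w * u + u * v)) + (u + v + w) +
      4 * Real.sqrt (3 * (u * v + v * w + w * u)) + 12 := by
  have e : (fun (i : Fin (u * v)) (j : Fin (v * w)) (k : Fin (w * u)) =>
      if i.modNat = j.divNat ∧ j.modNat = k.divNat ∧ k.modNat = i.divNat then (1 : ℂ) else 0) =
      res (Matrix.of fun i l => if l = (i.divNat, i.modNat) then 1 else 0)
        (Matrix.of fun i l => if l = (i.divNat, i.modNat) then 1 else 0)
        (Matrix.of fun i l => if l = (i.divNat, i.modNat) then 1 else 0) (MP u v w v w u) := by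
    ext i j k
    rw [res_single _ _ _ _ i j k _ _ _ (fun _ => rfl) (fun _ => rfl) (fun _ => rfl)]
    simp only [MP, pat, Fin.ext_iff, Fin.is_lt, or_true, and_true]
  have := bound h _ u v w v w u le_rfl (by rw [e]; exact deg_res _ _ _ _)
  unfold pot at this
  push_cast at this
  linarith

/-- Side theorem, not the hand-in: the square case. -/
theorem Pool.Agent.Results.MP_e72dc0_lc.BorderMethodsBarrier.square (n r : ℕ)
    (h : Der (fun i j k : Fin (n * n) =>
      if i.modNat = j.divNat ∧ j.modNat = k.divNat ∧ k.modNat = i.divNat then 1 else 0) r) :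
    r ≤ 2 * n ^ 2 + 15 * n + 12 := by
  have h1 := Pool.Agent.Results.MP_e72dc0_lc.BorderMethodsBarrier.result n n n r h
  have e : Real.sqrt (3 * (n * n + n * n + n * n)) = 3 * n := by
    rw [Real.sqrt_eq_iff_mul_self_eq (by positivity) (by positivity)]
    ring
  rw [e, max_self, max_self] at h1
  have : (r : ℝ) ≤ (2 * n ^ 2 + 15 * n + 12 : ℕ) := by
    push_cast
    linarith
  exact_mod_cast this

/-- Side theorem, not the hand-in: the system is sound; a limit of sums of `s` rank one tensors
has only bounds `r ≤ s`. -/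
theorem Pool.Agent.Results.MP_e72dc0_lc.BorderMethodsBarrier.sound {a b c : ℕ}
    (T : Fin a → Fin b → Fin c → ℂ) (r s : ℕ) (h : Der T r)
    (hs : Deg (fun i j k : Fin s => if i = j ∧ j = k then 1 else 0) T) : r ≤ s := by
  refine Pool.Agent.P.MP_e72dc0_lc.Bd.sound h s s ?_
  convert hs using 1
  ext i j k
  simp [unit]

/-- Side theorem, not the hand-in (known, Landsberg and Ottaviani): in the square case the bound
`2 n ^ 2 - n` is derivable. -/
theorem Pool.Agent.Results.MP_e72dc0_lc.BorderMethodsBarrier.reach (n : ℕ) :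
    Der (fun i j k : Fin (n * n) =>
      if i.modNat = j.divNat ∧ j.modNat = k.divNat ∧ k.modNat = i.divNat then 1 else 0)
      (2 * n ^ 2 - n) :=
  Pool.Agent.P.MP_e72dc0_lc.LO.reach n

/-- Side theorem, not the hand-in (known, Strassen): what a derivation gives for circuits. A
circuit with `s` gates `+` or `×` of two inputs (entries, constants, earlier gates) whose gates
include all entries of the product of two matrices has `r ≤ 2 s`. -/
theorem Pool.Agent.Results.MP_e72dc0_lc.BorderMethodsBarrier.method (n r s : ℕ)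
    (h : Der (fun i j k : Fin (n * n) =>
      if i.modNat = j.divNat ∧ j.modNat = k.divNat ∧ k.modNat = i.divNat then 1 else 0) r)
    (g : Fin s → Matrix (Fin n) (Fin n) ℂ → Matrix (Fin n) (Fin n) ℂ → ℂ)
    (hg : ∀ t, ∃ u v : Matrix (Fin n) (Fin n) ℂ → Matrix (Fin n) (Fin n) ℂ → ℂ,
      (∀ w, w = u ∨ w = v → (∃ i j, w = fun A _ => A i j) ∨ (∃ i j, w = fun _ B => B i j) ∨
        (∃ e, w = fun _ _ => e) ∨ ∃ t' < t, w = g t') ∧
      ((g t = fun A B => u A B + v A B) ∨ g t = fun A B => u A B * v A B))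
    (hout : ∀ i j, ∃ t, g t = fun A B => (A * B) i j) :
    r ≤ 2 * s :=
  Pool.Agent.P.MP_e72dc0_lc.LO.method_der n r s h
    (Pool.Agent.P.MP_e72dc0_lc.LO.strassen_mm n s g hg hout)
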