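import Pool.Agent.P.MP_e72dc0_lc.RkF
import Pool.Agent.P.MP_e72dc0_lc.LO
import Pool.Agent.P.MP_e72dc0_lc.LOc

/-! A sharp barrier for linear rank methods on tensors of order three. -/

theorem Pool.Agent.Results.MP_e72dc0_lc.RankMethodBarrier.result
    (F : Type*) [Field F] [Infinite F] (a b c p q : ℕ)
    (φ : (Fin a → Fin b → Fin c → F) →ₗ[F] Matrix (Fin p) (Fin q) F) (ρ : ℕ)
    (hρ : ∀ (x : Fin a → F) (y : Fin b → F) (z : Fin c → F),
      (φ fun i j k => x i * y j * z k).rank ≤ ρ)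
    (T : Fin a → Fin b → Fin c → F) :
    ((φ T).rank : ℝ) ≤
      ((a + b + c : ℝ) - min (a : ℝ) (min b c) + 4 * Real.sqrt (3 * (a + b + c)) + 11) * ρ := by
  simpa using Pool.Agent.P.MP_e72dc0_lc.Rk.barrier φ ρ hρ T a b c (Fintype.card_fin a)
    (Fintype.card_fin b) (Fintype.card_fin c)

/-- Side theorem, not the hand-in: the case of the tensor of the product of two `m × m` matrices. -/
theorem Pool.Agent.Results.MP_e72dc0_lc.RankMethodBarrier.matrix_product
    (F : Type*) [Field F] [Infinite F] (m p q : ℕ)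
    (φ : (Fin m × Fin m → Fin m × Fin m → Fin m × Fin m → F) →ₗ[F] Matrix (Fin p) (Fin q) F)
    (ρ : ℕ) (hρ : ∀ x y z : Fin m × Fin m → F, (φ fun i j k => x i * y j * z k).rank ≤ ρ) :
    (φ fun i j k => if i.2 = j.1 ∧ i.1 = k.1 ∧ j.2 = k.2 then 1 else 0).rank ≤
      (2 * m ^ 2 + 12 * m + 11) * ρ := by
  have h := Pool.Agent.P.MP_e72dc0_lc.Rk.barrier φ ρ hρ
    (fun i j k => if i.2 = j.1 ∧ i.1 = k.1 ∧ j.2 = k.2 then 1 else 0) (m * m) (m * m) (m * m)
    (by simp) (by simp) (by simp)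
  have e : Real.sqrt (3 * (m * m + m * m + m * m : ℕ)) = 3 * m := by
    rw [Real.sqrt_eq_iff_mul_self_eq (by positivity) (by positivity)]
    push_cast
    ring
  rw [e, min_self, min_self] at h
  have : (((m * m + m * m + m * m : ℕ) : ℝ) - (m * m : ℕ) + 4 * (3 * m) + 11) * ρ =
      (((2 * m ^ 2 + 12 * m + 11) * ρ : ℕ) : ℝ) := by
    push_cast
    ring
  rw [this] at h
  exact_mod_cast h

/-- Side theorem, not the hand-in (known, Landsberg and Ottaviani): on that tensor some linear map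
reaches `2 m ^ 2 - m`, over every field. -/
theorem Pool.Agent.Results.MP_e72dc0_lc.RankMethodBarrier.sharp
    (F : Type*) [Field F] (m : ℕ) : ∃ (p q ρ : ℕ)
    (φ : (Fin m × Fin m → Fin m × Fin m → Fin m × Fin m → F) →ₗ[F] Matrix (Fin p) (Fin q) F),
    0 < ρ ∧ (∀ x y z : Fin m × Fin m → F, (φ fun i j k => x i * y j * z k).rank ≤ ρ) ∧
    (φ fun i j k => if i.2 = j.1 ∧ i.1 = k.1 ∧ j.2 = k.2 then 1 else 0).rank =
      (2 * m ^ 2 - m) * ρ :=
  Pool.Agent.P.MP_e72dc0_lc.LO.sharp F m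

/-- Side theorem, not the hand-in (known, Strassen): what the method gives for circuits. A circuit
with `s` gates `+` or `×` of two inputs (entries, constants, earlier gates) whose gates include all
entries of the product of two matrices has `rank φ / ρ ≤ 2 s`. -/
theorem Pool.Agent.Results.MP_e72dc0_lc.RankMethodBarrier.method
    (F : Type*) [Field F] [Infinite F] (m p q s : ℕ)
    (φ : (Fin m × Fin m → Fin m × Fin m → Fin m × Fin m → F) →ₗ[F] Matrix (Fin p) (Fin q) F)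
    (ρ : ℕ) (hρ : ∀ x y z : Fin m × Fin m → F, (φ fun i j k => x i * y j * z k).rank ≤ ρ)
    (g : Fin s → Matrix (Fin m) (Fin m) F → Matrix (Fin m) (Fin m) F → F)
    (hg : ∀ t, ∃ u v : Matrix (Fin m) (Fin m) F → Matrix (Fin m) (Fin m) F → F,
      (∀ w, w = u ∨ w = v → (∃ i j, w = fun A _ => A i j) ∨ (∃ i j, w = fun _ B => B i j) ∨
        (∃ e, w = fun _ _ => e) ∨ ∃ t' < t, w = g t') ∧
      ((g t = fun A B => u A B + v A B) ∨ g t = fun A B => u A B * v A B))
    (hout : ∀ i j, ∃ t, g t = fun A B => (A * B) i j) :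
    (φ fun i j k => if i.2 = j.1 ∧ i.1 = k.1 ∧ j.2 = k.2 then 1 else 0).rank ≤ 2 * s * ρ :=
  Pool.Agent.P.MP_e72dc0_lc.LO.method m p q s φ ρ hρ
    (Pool.Agent.P.MP_e72dc0_lc.LO.strassen_mm m s g hg hout)
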