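import Pool.Agent.K.MP_e72dc0_lc.C1
import Pool.Agent.P.MP_e72dc0_lc.CuD

/-! Symmetric and alternating groups, their direct products and subgroups of small index cannot
prove that the exponent of matrix multiplication is `2` in the group-theoretic framework. -/

namespace Pool.Agent.Results.MP_e72dc0_lc.SymmetricBarrier

/-- The simultaneous triple product property. -/
def IsSTPP {G : Type} [Group G] {ι : Type} (S T U : ι → Finset G) : Prop :=
  ∀ i j k, ∀ s ∈ S i, ∀ s' ∈ S j, ∀ t ∈ T j, ∀ t' ∈ T k, ∀ u ∈ U k, ∀ u' ∈ U i,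
    s⁻¹ * s' * t⁻¹ * t' * u⁻¹ * u' = 1 → i = j ∧ j = k ∧ s = s' ∧ t = t' ∧ u = u'

/-- `d` lists the sizes of the matrix blocks of the complex group algebra. -/
def HasDegrees (G : Type) [Group G] {κ : Type} (d : κ → ℕ) : Prop :=
  Nonempty (MonoidAlgebra ℂ G ≃ₐ[ℂ] ∀ k, Matrix (Fin (d k)) (Fin (d k)) ℂ)

/-- The inequality of Cohn, Kleinberg, Szegedy and Umans holds with the factor `δ` to spare,
for every exponent in `[2, 2 + ε]` and every family with the simultaneous triple product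
property in `G`. -/
def Barrier (G : Type) [Group G] (δ ε : ℝ) : Prop :=
  ∀ (ι : Type) [Fintype ι] (S T U : ι → Finset G), IsSTPP S T U →
  ∀ (κ : Type) [Fintype κ] (d : κ → ℕ), HasDegrees G d →
  ∀ w : ℝ, 2 ≤ w → w ≤ 2 + ε →
    ∑ i, (((S i).card * (T i).card * (U i).card : ℕ) : ℝ) ^ (w / 3) ≤ δ * ∑ k, (d k : ℝ) ^ w

theorem result : ∃ c : ℝ, 0 < c ∧ ∃ ε : ℝ, 0 < ε ∧ ∃ n₀ : ℕ,
    ∀ (m : ℕ) (n : Fin m → ℕ), (∀ i, n₀ ≤ n i) →
    ∀ H : Subgroup (∀ i, Equiv.Perm (Fin (n i))),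
      (H.index : ℝ) ≤ Real.exp (c * ∑ i, Real.sqrt (n i)) →
      Barrier H (Real.exp (-(c * ∑ i, Real.sqrt (n i)))) ε :=
  Pool.Agent.P.MP_e72dc0_lc.Sn.barrier

/-- Side theorem, not the hand-in (Cohn, Kleinberg, Szegedy, Umans 2005, Theorem 5.5, here for
the circuits of the problem file over `ℂ`): a family that violates the inequality of `Barrier`
(with `δ = 1`) at every exponent in `[w, 3]` gives circuits of size `O(n ^ (w / 2))`, `n = m ^ 2`,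
for the product of `m × m` matrices. Gate `t` adds or multiplies two of: an entry of `x`, an entry
of `y`, a constant, an earlier gate. Gates are read as functions of `x` and `y`, which over `ℂ`
determine the polynomials. -/
theorem method (G : Type) [Group G] (ι : Type) [Fintype ι] (S T U : ι → Finset G)
    (h : IsSTPP S T U) (κ : Type) [Fintype κ] (d : κ → ℕ) (hd : HasDegrees G d) (w : ℝ)
    (hlt : ∀ v : ℝ, w ≤ v → v ≤ 3 → ∑ k, (d k : ℝ) ^ v <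
      ∑ i, (((S i).card * (T i).card * (U i).card : ℕ) : ℝ) ^ (v / 3)) :
    ∃ K : ℝ, ∀ m : ℕ, 1 ≤ m →
      ∃ (s : ℕ) (g : Fin s → (Fin m → Fin m → ℂ) → (Fin m → Fin m → ℂ) → ℂ),
        (s : ℝ) ≤ K * ((m : ℝ) ^ 2) ^ (w / 2) ∧
        (∀ t, ∃ u : Fin 2 → (Fin m → Fin m → ℂ) → (Fin m → Fin m → ℂ) → ℂ,
          (∀ e, (∃ i j, ∀ x y, u e x y = x i j) ∨ (∃ i j, ∀ x y, u e x y = y i j) ∨
            (∃ c : ℂ, ∀ x y, u e x y = c) ∨ ∃ t' < t, ∀ x y, u e x y = g t' x y) ∧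
          ((∀ x y, g t x y = u 0 x y + u 1 x y) ∨ ∀ x y, g t x y = u 0 x y * u 1 x y)) ∧
        ∀ i j : Fin m, ∃ t, ∀ x y, g t x y = ∑ k, x i k * y k j :=
  Pool.Agent.P.MP_e72dc0_lc.Cu.method h hd hlt

/-- Side theorem (same source): the inequality of `Barrier` (with `δ = 1`) holds at the exponent
`ω` of matrix multiplication, the infimum of all `w` with circuits of size `O(n ^ (w / 2))`. -/
theorem exponent (F : ℝ → Prop) (hF : ∀ w : ℝ, F w ↔ ∃ K : ℝ, ∀ m : ℕ, 1 ≤ m →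
      ∃ (s : ℕ) (g : Fin s → (Fin m → Fin m → ℂ) → (Fin m → Fin m → ℂ) → ℂ),
        (s : ℝ) ≤ K * ((m : ℝ) ^ 2) ^ (w / 2) ∧
        (∀ t, ∃ u : Fin 2 → (Fin m → Fin m → ℂ) → (Fin m → Fin m → ℂ) → ℂ,
          (∀ e, (∃ i j, ∀ x y, u e x y = x i j) ∨ (∃ i j, ∀ x y, u e x y = y i j) ∨
            (∃ c : ℂ, ∀ x y, u e x y = c) ∨ ∃ t' < t, ∀ x y, u e x y = g t' x y) ∧
          ((∀ x y, g t x y = u 0 x y + u 1 x y) ∨ ∀ x y, g t x y = u 0 x y * u 1 x y)) ∧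
        ∀ i j : Fin m, ∃ t, ∀ x y, g t x y = ∑ k, x i k * y k j) :
    ∃ ω : ℝ, 2 ≤ ω ∧ ω ≤ 3 ∧ (∀ w, ω < w → F w) ∧ (∀ w, F w → ω ≤ w) ∧
      ∀ (G : Type) [Group G] (ι : Type) [Fintype ι] (S T U : ι → Finset G), IsSTPP S T U →
      ∀ (κ : Type) [Fintype κ] (d : κ → ℕ), HasDegrees G d →
        ∑ i, (((S i).card * (T i).card * (U i).card : ℕ) : ℝ) ^ (ω / 3) ≤ ∑ k, (d k : ℝ) ^ ω :=
  Pool.Agent.P.MP_e72dc0_lc.Cu.exponent F hF

/-- Side theorem (Cohn, Umans 2003, Theorem 4.1): for one triple, a violation at `w` suffices. -/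
theorem method_one (G : Type) [Group G] (S T U : Finset G)
    (h : IsSTPP (fun _ : Fin 1 => S) (fun _ => T) (fun _ => U)) (κ : Type) [Fintype κ] (d : κ → ℕ)
    (hd : HasDegrees G d) (w : ℝ) (hw : 0 < w)
    (hlt : ∑ k, (d k : ℝ) ^ w < ((S.card * T.card * U.card : ℕ) : ℝ) ^ (w / 3)) :
    ∃ K : ℝ, ∀ m : ℕ, 1 ≤ m →
      ∃ (s : ℕ) (g : Fin s → (Fin m → Fin m → ℂ) → (Fin m → Fin m → ℂ) → ℂ),
        (s : ℝ) ≤ K * ((m : ℝ) ^ 2) ^ (w / 2) ∧
        (∀ t, ∃ u : Fin 2 → (Fin m → Fin m → ℂ) → (Fin m → Fin m → ℂ) → ℂ,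
          (∀ e, (∃ i j, ∀ x y, u e x y = x i j) ∨ (∃ i j, ∀ x y, u e x y = y i j) ∨
            (∃ c : ℂ, ∀ x y, u e x y = c) ∨ ∃ t' < t, ∀ x y, u e x y = g t' x y) ∧
          ((∀ x y, g t x y = u 0 x y + u 1 x y) ∨ ∀ x y, g t x y = u 0 x y * u 1 x y)) ∧
        ∀ i j : Fin m, ∃ t, ∀ x y, g t x y = ∑ k, x i k * y k j :=
  Pool.Agent.P.MP_e72dc0_lc.Cu.method_one h hd hw hlt

/-- Side theorem: the hypothesis of `method` is met at an exponent below `3`. -/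
theorem violated_below_three : ∃ (G : Type) (_ : Group G) (S T U : Fin 2 → Finset G) (n : ℕ)
    (d : Fin n → ℕ), IsSTPP S T U ∧ HasDegrees G d ∧ ∀ v : ℝ, 17 / 6 ≤ v → ∑ k, (d k : ℝ) ^ v <
      ∑ i, (((S i).card * (T i).card * (U i).card : ℕ) : ℝ) ^ (v / 3) :=
  ⟨_, _, Pool.Agent.P.MP_e72dc0_lc.Cu.control⟩

/-- Side theorem: every finite group has block sizes, and their squares add up to its order. -/
theorem degrees_exist (G : Type) [Group G] [Fintype G] : ∃ (n : ℕ) (d : Fin n → ℕ),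
    HasDegrees G d ∧ ∑ k, d k ^ 2 = ∑ _g : G, 1 := by
  obtain ⟨n, d, h⟩ := Pool.Agent.P.MP_e72dc0_lc.Cu.degrees_exist G
  exact ⟨n, d, h, (Pool.Agent.P.MP_e72dc0_lc.Cu.degrees_sum h).trans (by simp)⟩

/-- Side theorem, from `result`: in large symmetric and alternating groups (index at most `2`)
the hypothesis of `method` fails for every `w ≤ 2 + ε`. -/
theorem blocked : ∃ ε : ℝ, 0 < ε ∧ ∃ n₀ : ℕ, ∀ n : ℕ, n₀ ≤ n →
    ∀ H : Subgroup (Equiv.Perm (Fin n)), H.index ≤ 2 →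
    ∀ (ι : Type) [Fintype ι] (S T U : ι → Finset H), IsSTPP S T U →
    ∀ (κ : Type) [Fintype κ] (d : κ → ℕ), HasDegrees H d → ∀ w : ℝ, w ≤ 2 + ε →
      ¬ ∀ v : ℝ, w ≤ v → v ≤ 3 → ∑ k, (d k : ℝ) ^ v <
        ∑ i, (((S i).card * (T i).card * (U i).card : ℕ) : ℝ) ^ (v / 3) := by
  obtain ⟨c, hc, ε, hε, n₀, h⟩ := result
  obtain ⟨k, hk⟩ := exists_nat_ge ((1 / c) ^ 2)
  refine ⟨min ε 1, lt_min hε one_pos, max n₀ k, fun n hn H hH ι _ S T U hS κ _ d hd w hw hv => ?_⟩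
  have h1 : 1 / c ≤ Real.sqrt n :=
    Real.le_sqrt_of_sq_le (hk.trans (by exact_mod_cast (le_max_right _ _).trans hn))
  have h2 : 1 ≤ c * Real.sqrt n := by
    rw [div_le_iff₀ hc] at h1
    linarith
  have h3 := h 1 (fun _ => n) (fun _ => (le_max_left _ _).trans hn)
    (H.comap (Pi.evalMonoidHom (fun _ : Fin 1 => Equiv.Perm (Fin n)) 0)) (by
      rw [Subgroup.index_comap_of_surjective _ fun g => ⟨fun _ => g, rfl⟩, Fin.sum_univ_one]
      have := Real.add_one_le_exp (c * Real.sqrt n)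
      have : (H.index : ℝ) ≤ 2 := by exact_mod_cast hH
      linarith) ι _ _ _
    (Pool.Agent.P.MP_e72dc0_lc.Cu.St.map (Pool.Agent.P.MP_e72dc0_lc.Cu.oneEquiv H) hS) κ d
    (Pool.Agent.P.MP_e72dc0_lc.Cu.Dg.map (Pool.Agent.P.MP_e72dc0_lc.Cu.oneEquiv H) hd)
    (max w 2) (le_max_right _ _)
    (max_le (hw.trans (by linarith [min_le_left ε 1])) (by linarith))
  simp only [Finset.card_map, Fin.sum_univ_one] at h3
  refine (hv (max w 2) (le_max_left _ _)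
    (max_le (hw.trans (by linarith [min_le_right ε 1])) (by norm_num))).not_ge (h3.trans ?_)
  exact mul_le_of_le_one_left (by positivity) (Real.exp_le_one_iff.2 (by linarith))

end Pool.Agent.Results.MP_e72dc0_lc.SymmetricBarrier
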