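import Pool.Agent.K.MP_e72dc0_lc.C2
import Pool.Agent.P.MP_e72dc0_lc.Ck.C

/-! The two families conjecture of Cohn, Kleinberg, Szegedy and Umans is false: families with
the simultaneous double product property in abelian groups cannot prove that the exponent of
matrix multiplication is `2`. -/

namespace Pool.Agent.Results.MP_e72dc0_lc.TwoFamilies

/-- The simultaneous double product property, written additively. -/
def IsSDPP {G : Type} [AddCommGroup G] {n : ℕ} (A B : Fin n → Finset G) : Prop :=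
  (∀ i, ∀ a ∈ A i, ∀ a' ∈ A i, ∀ b ∈ B i, ∀ b' ∈ B i, a - a' + (b - b') = 0 → a = a' ∧ b = b') ∧
  ∀ i j k, ∀ a ∈ A i, ∀ a' ∈ A j, ∀ b ∈ B j, ∀ b' ∈ B k, a - a' + (b - b') = 0 → i = k

theorem result : ∃ c : ℝ, 0 < c ∧ ∀ (G : Type) [AddCommGroup G] [Fintype G] (n : ℕ)
    (A B : Fin n → Finset G), IsSDPP A B → ∀ w : ℝ, 2 ≤ w → w ≤ 2 + c →
      ∑ i, (((A i).card * (B i).card : ℕ) : ℝ) ^ (w / 2) ≤ (Fintype.card G : ℝ) ^ (3 / 2 : ℝ) := by
  obtain ⟨c, hc, h⟩ := Pool.Agent.P.MP_e72dc0_lc.TF.main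
  exact ⟨c, hc, fun G _ _ n A B hS => (h G n A B hS).1⟩

/-- Side theorem, not the hand-in (Cohn, Kleinberg, Szegedy, Umans 2005, Theorem 4.4, here for
the circuits of the problem file over `ℂ`): a family that violates the inequality of `result` at
`w` gives circuits of size `O(n ^ (w / 2))`, `n = m ^ 2`, for the product of `m × m` matrices.
Gate `t` adds or multiplies two of: an entry of `x`, an entry of `y`, a constant, an earlier
gate. Gates are read as functions of `x` and `y`, which over `ℂ` determine the polynomials. -/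
theorem method (G : Type) [AddCommGroup G] [Fintype G] (n : ℕ) (A B : Fin n → Finset G)
    (h : IsSDPP A B) (w : ℝ) (hw : 2 ≤ w) (hlt : (Fintype.card G : ℝ) ^ (3 / 2 : ℝ) <
      ∑ i, (((A i).card * (B i).card : ℕ) : ℝ) ^ (w / 2)) :
    ∃ K : ℝ, ∀ m : ℕ, 1 ≤ m →
      ∃ (s : ℕ) (g : Fin s → (Fin m → Fin m → ℂ) → (Fin m → Fin m → ℂ) → ℂ),
        (s : ℝ) ≤ K * ((m : ℝ) ^ 2) ^ (w / 2) ∧
        (∀ t, ∃ u : Fin 2 → (Fin m → Fin m → ℂ) → (Fin m → Fin m → ℂ) → ℂ,
          (∀ e, (∃ i j, ∀ x y, u e x y = x i j) ∨ (∃ i j, ∀ x y, u e x y = y i j) ∨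
            (∃ c : ℂ, ∀ x y, u e x y = c) ∨ ∃ t' < t, ∀ x y, u e x y = g t' x y) ∧
          ((∀ x y, g t x y = u 0 x y + u 1 x y) ∨ ∀ x y, g t x y = u 0 x y * u 1 x y)) ∧
        ∀ i j : Fin m, ∃ t, ∀ x y, g t x y = ∑ k, x i k * y k j :=
  Pool.Agent.P.MP_e72dc0_lc.Ck.method h hw hlt

/-- Side theorem: the hypothesis of `method` is met at an exponent below `3`. -/
theorem violated_below_three : ∃ (G : Type) (_ : AddCommGroup G) (_ : Fintype G) (n : ℕ)
    (A B : Fin n → Finset G), IsSDPP A B ∧ (Fintype.card G : ℝ) ^ (3 / 2 : ℝ) <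
      ∑ i, (((A i).card * (B i).card : ℕ) : ℝ) ^ ((17 / 6 : ℝ) / 2) :=
  ⟨_, _, _, 2, Pool.Agent.P.MP_e72dc0_lc.Ck.control⟩

/-- Side theorem: families with the sizes of the two families conjecture violate the inequality
at every `w > 2`, so by `method` the conjecture would give the negated form of the question. -/
theorem conjectured_sizes_violate (w : ℝ) (hw : 2 < w) : ∃ ε : ℝ, 0 < ε ∧
    ∀ (G : Type) [Fintype G] (n : ℕ) (A B : Fin n → Finset G), 2 ≤ n →
      (Fintype.card G : ℝ) ≤ (n : ℝ) ^ (2 + ε) →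
      (∀ i, (n : ℝ) ^ (2 - ε) ≤ (((A i).card * (B i).card : ℕ) : ℝ)) →
      (Fintype.card G : ℝ) ^ (3 / 2 : ℝ) <
        ∑ i, (((A i).card * (B i).card : ℕ) : ℝ) ^ (w / 2) := by
  refine ⟨(w - 2) / (w + 2), div_pos (by linarith) (by linarith), fun G _ n A B hn hG hAB => ?_⟩
  have e : (w - 2) / (w + 2) * (w + 2) = w - 2 := div_mul_cancel₀ _ (by linarith)
  have e0 : 0 < (w - 2) / (w + 2) := div_pos (by linarith) (by linarith)
  generalize (w - 2) / (w + 2) = ε at *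
  have n1 : (1 : ℝ) < n := by exact_mod_cast hn
  have n0 : (0 : ℝ) < n := by linarith
  calc (Fintype.card G : ℝ) ^ (3 / 2 : ℝ) ≤ ((n : ℝ) ^ (2 + ε)) ^ (3 / 2 : ℝ) := by gcongr
    _ = (n : ℝ) ^ ((2 + ε) * (3 / 2)) := (Real.rpow_mul n0.le _ _).symm
    _ < (n : ℝ) ^ (1 + (2 - ε) * (w / 2)) := Real.rpow_lt_rpow_of_exponent_lt n1 (by nlinarith)
    _ = ∑ _i : Fin n, ((n : ℝ) ^ (2 - ε)) ^ (w / 2) := by
      rw [Real.rpow_add n0, Real.rpow_one, Real.rpow_mul n0.le]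
      simp
    _ ≤ _ := Finset.sum_le_sum fun i _ =>
      Real.rpow_le_rpow (by positivity) (hAB i) (by linarith)

/-- Side theorem: the two families conjecture (Conjecture 4.7) written out and refuted from
`result`. -/
theorem conjecture_false : ¬ ∀ ε : ℝ, 0 < ε → ∃ (G : Type) (_ : AddCommGroup G) (_ : Fintype G)
    (n : ℕ) (A B : Fin n → Finset G), 2 ≤ n ∧ IsSDPP A B ∧
      (Fintype.card G : ℝ) ≤ (n : ℝ) ^ (2 + ε) ∧
      ∀ i, (n : ℝ) ^ (2 - ε) ≤ (((A i).card * (B i).card : ℕ) : ℝ) := by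
  intro H
  obtain ⟨c, hc, h⟩ := result
  obtain ⟨ε, hε, h'⟩ := conjectured_sizes_violate (2 + c) (by linarith)
  obtain ⟨G, _, _, n, A, B, hn, hS, hG, hAB⟩ := H ε hε
  exact (h' G n A B hn hG hAB).not_ge (h G n A B hS (2 + c) (by linarith) le_rfl)

end Pool.Agent.Results.MP_e72dc0_lc.TwoFamilies
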